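import Pool.Agent.Q276.BA.Stm3
import Pool.Agent.Q182.BA.Num

/-! # Project BA (helper276), job N67: numerical inequalities -/

set_option autoImplicit false

open MeasureTheory Set Filter Topology

namespace Pool.Agent.Q64.BA

open Pool.Agent.Q276.BA
open Pool.Agent.Q182.BA (two_le_log u_nonneg u_lt eO_ge)

theorem exp_two_le : Real.exp 2 ≤ (7.3891 : ℝ) := by
  have h := Real.exp_one_lt_d9
  have h0 : 0 < Real.exp 1 := Real.exp_pos 1
  have h2 : Real.exp 2 = Real.exp 1 ^ 2 := by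
    rw [← Real.exp_nat_mul]
    norm_num
  rw [h2]
  have h3 : Real.exp 1 ^ 2 ≤ (2.7182818286 : ℝ) ^ 2 := pow_le_pow_left₀ h0.le h.le 2
  refine h3.trans ?_
  norm_num

/-- `eO (m + 1) / e ^ 2` -/
noncomputable def eR (m : ℕ) : ℝ := Real.exp (2 * ∑ j ∈ Finset.range m, 1 / (2 * ((j : ℝ) + 1) + 1))

theorem eO_eR (m : ℕ) : eO (m + 1) = eR m * Real.exp 2 := by
  unfold eO eR
  rw [← Real.exp_add, Finset.sum_range_succ']
  congr 1
  push_cast
  rw [mul_add]
  norm_num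

theorem eR_ge (m : ℕ) (hm : 1 ≤ m) : 0.778 * ((m : ℝ) + 1) ≤ eR m := by
  obtain ⟨k, rfl⟩ : ∃ k, m = k + 1 := ⟨m - 1, by omega⟩
  have h1 := eO_ge k
  have h2 := eO_eR (k + 1)
  rw [show k + 1 + 1 = k + 2 by ring] at h2
  rw [h2] at h1
  have h3 := exp_two_le
  have h4 : 0 < eR (k + 1) := Real.exp_pos _
  have hk : (0 : ℝ) ≤ k := Nat.cast_nonneg k
  have h5 : eR (k + 1) * Real.exp 2 ≤ eR (k + 1) * 7.3891 := mul_le_mul_of_nonneg_left h3 h4.le
  push_cast
  nlinarith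

/-- the factors `j ≥ 1` -/
theorem prod_ge (m : ℕ) (p : ℝ) (hp : 2 ≤ p) :
    (eR m) ^ (1 - 2 / p) ≤
      ∏ j ∈ Finset.range m, ((((j + 1 : ℕ) : ℝ) + 1 - 1 / p) / (((j + 1 : ℕ) : ℝ) + 1 / p)) := by
  obtain ⟨u, hu⟩ : ∃ u : ℝ, u = 1 - 2 / p := ⟨_, rfl⟩
  have hu0 : 0 ≤ u := by rw [hu]; exact u_nonneg hp
  have hu1 : u < 1 := by rw [hu]; exact u_lt hp
  have hp0 : p ≠ 0 := by linarith
  have hpu : 1 / p = (1 - u) / 2 := by
    rw [hu]
    field_simp
    ring
  rw [← hu]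
  calc (eR m) ^ u = ∏ j ∈ Finset.range m, Real.exp (2 * (u / (2 * ((j : ℝ) + 1) + 1))) := by
        unfold eR
        rw [← Real.exp_mul, ← Real.exp_sum]
        congr 1
        rw [mul_assoc, Finset.sum_mul, Finset.mul_sum]
        exact Finset.sum_congr rfl fun j _ => by ring
    _ ≤ _ := by
        refine Finset.prod_le_prod (fun j _ => (Real.exp_pos _).le) fun j _ => ?_
        obtain ⟨x, hx⟩ : ∃ x : ℝ, x = (j : ℝ) + 1 := ⟨_, rfl⟩
        have hj : (0 : ℝ) ≤ x := by rw [hx]; positivity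
        have hxx : ((j + 1 : ℕ) : ℝ) = x := by rw [hx]; push_cast; ring
        rw [hxx, ← hx]
        have ha : (0 : ℝ) < 2 * x + 1 := by linarith
        refine (two_le_log (div_nonneg hu0 ha.le) ?_).trans (le_of_eq ?_)
        · rw [div_lt_one ha]
          linarith
        · rw [hpu]
          have h1 : (2 * x + 1 - u) ≠ 0 := by
            have : 0 < 2 * x + 1 - u := by linarith
            exact this.ne'
          have h2 : 1 - u / (2 * x + 1) ≠ 0 := by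
            have : 1 - u / (2 * x + 1) = (2 * x + 1 - u) / (2 * x + 1) := by
              field_simp
            rw [this]
            exact div_ne_zero h1 ha.ne'
          have h3 : x + (1 - u) / 2 ≠ 0 := by
            have : 0 < x + (1 - u) / 2 := by linarith
            exact this.ne'
          rw [div_eq_div_iff h2 h3]
          field_simp
          ring

/-- **N6** -/
theorem n6 : S_N6 := by
  intro n p hn hp
  obtain ⟨m, rfl⟩ : ∃ m, n = m + 1 := ⟨n - 1, by omega⟩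
  have hp0 : p ≠ 0 := by linarith
  have hu0 := u_nonneg hp
  have h1 : (0.778 * (((m + 1 : ℕ) : ℝ))) ^ (1 - 2 / p) ≤ (eR m) ^ (1 - 2 / p) := by
    rcases Nat.eq_zero_or_pos m with h0 | h0
    · subst h0
      have h2 : eR 0 = 1 := by
        unfold eR
        simp
      rw [h2, Real.one_rpow]
      refine Real.rpow_le_one (by norm_num) (by norm_num) hu0
    · refine Real.rpow_le_rpow (by positivity) ?_ hu0
      have := eR_ge m h0
      push_cast
      exact this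
  have h3 := h1.trans (prod_ge m p hp)
  unfold Pool.Agent.Y282.RB.Cn
  rw [Finset.prod_range_succ']
  have h4 : ((((0 : ℕ) : ℝ) + 1 - 1 / p) / (((0 : ℕ) : ℝ) + 1 / p)) = p - 1 := by
    push_cast
    field_simp
    ring
  rw [h4, mul_comm]
  exact mul_le_mul_of_nonneg_right h3 (by linarith)

/-- **N7** -/
theorem n7 : S_N7 := by
  intro hN6 n D p hn hp
  have hn0 : (1 : ℝ) ≤ n := by exact_mod_cast hn
  have hD0 : (0 : ℝ) ≤ D := Nat.cast_nonneg D
  obtain ⟨X, hX⟩ : ∃ X : ℝ, X = (1 + (D : ℝ) / n) ^ (5 / 8 : ℝ) := ⟨_, rfl⟩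
  have hq : (0 : ℝ) ≤ (D : ℝ) / n := div_nonneg hD0 (by linarith)
  have hX1 : 1 ≤ X := by
    rw [hX]
    exact Real.one_le_rpow (by linarith) (by norm_num)
  rw [← hX] at hp
  have hp2 : 2 ≤ p := by linarith
  have hu0 := u_nonneg hp2
  have hu1 := u_lt hp2
  have h1 : (n : ℝ) ^ (3 / 8 : ℝ) * ((n : ℝ) + D) ^ (5 / 8 : ℝ) = n * X := by
    have h2 : (n : ℝ) + D = n * (1 + (D : ℝ) / n) := by
      field_simp
    rw [h2, Real.mul_rpow (by linarith) (by linarith), ← hX, ← mul_assoc, ← Real.rpow_add (by linarith)]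
    norm_num
  have h3 : 1 + 4 * (n : ℝ) ^ (3 / 8 : ℝ) * ((n : ℝ) + D) ^ (5 / 8 : ℝ) ≤ 0.778 * n * (p - 1) := by
    rw [mul_assoc, h1]
    have h4 : (n : ℝ) * (2 + 6 * X) ≤ n * (p - 1) := mul_le_mul_of_nonneg_left (by linarith) (by linarith)
    have h5 : (1 : ℝ) ≤ n * X := by nlinarith
    nlinarith
  have h0 : 0 ≤ 1 + 4 * (n : ℝ) ^ (3 / 8 : ℝ) * ((n : ℝ) + D) ^ (5 / 8 : ℝ) := by positivity
  calc (1 + 4 * (n : ℝ) ^ (3 / 8 : ℝ) * ((n : ℝ) + D) ^ (5 / 8 : ℝ)) ^ (1 - 2 / p) ≤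
      (0.778 * n * (p - 1)) ^ (1 - 2 / p) := Real.rpow_le_rpow h0 h3 hu0
    _ = (0.778 * n) ^ (1 - 2 / p) * (p - 1) ^ (1 - 2 / p) := Real.mul_rpow (by positivity) (by linarith)
    _ ≤ (0.778 * n) ^ (1 - 2 / p) * (p - 1) := by
        refine mul_le_mul_of_nonneg_left ?_ (Real.rpow_nonneg (by positivity) _)
        calc (p - 1) ^ (1 - 2 / p) ≤ (p - 1) ^ (1 : ℝ) :=
              Real.rpow_le_rpow_of_exponent_le (by linarith) hu1.le
          _ = p - 1 := Real.rpow_one _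
    _ = (p - 1) * (0.778 * n) ^ (1 - 2 / p) := mul_comm _ _
    _ ≤ Pool.Agent.Y282.RB.Cn p n := hN6 n p hn hp2

end Pool.Agent.Q64.BA
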